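import Mathlib
import Pool.Agent.P.MP_542002_pr.H59.Op

namespace Pool.Agent.Results.MP_542002_pr.InfiniteDim

/-- the complex Hilbert space `ℓ²(V)` -/
abbrev L2 (V : Type) : Type := lp (fun _ : V => ℂ) 2

/-- the bounded operators on a complex normed space -/
abbrev Op (H : Type) [NormedAddCommGroup H] [NormedSpace ℂ H] : Type := H →L[ℂ] H

/-- the spectral radius of a bounded operator -/
noncomputable def rad {H : Type} [NormedAddCommGroup H] [NormedSpace ℂ H] (P : Op H) : ENNReal :=
  spectralRadius ℂ P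

/-- the map `P` averages over the `d` neighbours -/
def IsMarkov {V : Type} (G : SimpleGraph V) [G.LocallyFinite] (d : ℕ) (P : L2 V → L2 V) : Prop :=
  ∀ (f : L2 V) (v : V), P f v = 1 / (d : ℂ) * ∑ u ∈ G.neighborFinset v, f u

/-- Let `G` be an infinite `d`-regular graph, `d ≥ 3`, connected or not, and let `P` be the Markov
operator of simple random walk on `ℓ²(V)`. If the spectral radius of `P` is `2 √(d - 1) / d`, then
`G` carries infinitely many linearly independent bounded harmonic functions. -/
theorem result (V : Type) [Infinite V] (G : SimpleGraph V) [G.LocallyFinite] (d : ℕ) (hd : 3 ≤ d)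
    (hreg : G.IsRegularOfDegree d) (P : Op (L2 V)) (hP : IsMarkov G d P)
    (hρ : rad P = ENNReal.ofReal (2 * Real.sqrt ((d : ℝ) - 1) / d)) :
    ∃ f : ℕ → V → ℝ, LinearIndependent ℝ f ∧ ∀ n, (∃ C : ℝ, ∀ v, |f n v| ≤ C) ∧
      ∀ v, f n v = 1 / (d : ℝ) * ∑ u ∈ G.neighborFinset v, f n u := by
  classical
  exact Pool.Agent.P.MP_542002_pr.H59.main G d hd hreg P hP hρ.le

end Pool.Agent.Results.MP_542002_pr.InfiniteDim
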